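import Mathlib
import Pool.Agent.W5h75.BoxDefs
import Pool.Agent.W5h75.BoxProof

/-!
The topologization of Kuratowski-Painleve convergence over the box metric is not Hausdorff.
-/

namespace Pool.Agent.Results.MP_3b4475_gt.KuratowskiBoxNotHausdorff

open Pool.Agent.W5h75.Box

/-- The space of closed sets of classes of mm-spaces (for the box metric), with the finest
topology in which every Kuratowski-Painleve convergent net converges to its Kuratowski-Painleve
limit, is not a Hausdorff space. -/
theorem result : ¬ @T2Space (TopologicalSpace.Closeds MMClass) tauK := not_t2

end Pool.Agent.Results.MP_3b4475_gt.KuratowskiBoxNotHausdorff
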